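import Pool.Agent.Helper53.WR.Defs

set_option autoImplicit false

namespace Pool.Agent.Helper87.WR

open Finset
open Pool.Agent.Helper53.WR
open Pool.Agent.Helper3.Thin (dig und off Lab GoodSet)

/-- Count for a fixed top part. -/
lemma mass_fixed {q : ℕ} [Fact q.Prime] (S m : ℕ) (hm : 0 < m)
    (hc : Nat.Coprime q m) (r : ℕ) (u : ZMod q × ZMod q) (t : ℕ) :
    (((univ : Finset (ZMod q × ZMod q)) ×ˢ (range S)).filter
      (fun y => (und u y.1 + q ^ 4 * (S + y.2 + t)) % m = r % m)).card ≤ q ^ 2 * S / m + 1 := by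
  have hq : 0 < q := (Fact.out : q.Prime).pos
  haveI : NeZero q := ⟨hq.ne'⟩
  have hlt : ∀ v : ZMod q × ZMod q, v.2.val + v.1.val * q < q ^ 2 := fun v =>
    Pool.Agent.Helper3.Thin.two_digits_lt (ZMod.val_lt v.2) (ZMod.val_lt v.1)
  have hq2 : 0 < q ^ 2 := by positivity
  rw [← card_range (q ^ 2 * S / m + 1)]
  refine card_le_card_of_injOn (fun y => (y.1.2.val + y.1.1.val * q + q ^ 2 * y.2) / m) ?_ ?_
  · intro y hy
    rw [mem_coe, mem_filter, mem_product, mem_range] at hy
    rw [mem_coe, mem_range, Nat.lt_add_one_iff]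
    apply Nat.div_le_div_right
    have h1 := hlt y.1
    have h2 : q ^ 2 * (y.2 + 1) ≤ q ^ 2 * S := Nat.mul_le_mul_left _ hy.1.2
    rw [Nat.mul_add, Nat.mul_one] at h2
    omega
  · intro y hy y' hy' h
    rw [mem_coe, mem_filter, mem_product, mem_range] at hy hy'
    simp only at h
    have e : ∀ w : (ZMod q × ZMod q) × ℕ, und u w.1 + q ^ 4 * (S + w.2 + t)
        = ((u.2.val + u.1.val * q) + q ^ 4 * (S + t))
          + q ^ 2 * (w.1.2.val + w.1.1.val * q + q ^ 2 * w.2) := by
      intro w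
      unfold und
      ring
    have hcong : ((u.2.val + u.1.val * q) + q ^ 4 * (S + t))
          + q ^ 2 * (y.1.2.val + y.1.1.val * q + q ^ 2 * y.2)
        ≡ ((u.2.val + u.1.val * q) + q ^ 4 * (S + t))
          + q ^ 2 * (y'.1.2.val + y'.1.1.val * q + q ^ 2 * y'.2) [MOD m] := by
      rw [← e y, ← e y']
      unfold Nat.ModEq
      rw [hy.2, hy'.2]
    have hcong2 := Nat.ModEq.add_left_cancel' _ hcong
    have hgcd : Nat.gcd m (q ^ 2) = 1 := by
      rw [Nat.gcd_comm]
      exact Nat.Coprime.pow_left 2 hc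
    have hcong3 := Nat.ModEq.cancel_left_of_coprime hgcd hcong2
    have hx : y.1.2.val + y.1.1.val * q + q ^ 2 * y.2
        = y'.1.2.val + y'.1.1.val * q + q ^ 2 * y'.2 := by
      rw [← Nat.div_add_mod (y.1.2.val + y.1.1.val * q + q ^ 2 * y.2) m,
        ← Nat.div_add_mod (y'.1.2.val + y'.1.1.val * q + q ^ 2 * y'.2) m, h]
      have : (y.1.2.val + y.1.1.val * q + q ^ 2 * y.2) % m
        = (y'.1.2.val + y'.1.1.val * q + q ^ 2 * y'.2) % m := hcong3
      rw [this]
    have h1 := hlt y.1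
    have h1' := hlt y'.1
    have hs : y.2 = y'.2 := by
      have a1 : (y.1.2.val + y.1.1.val * q + q ^ 2 * y.2) / q ^ 2 = y.2 := by
        rw [Nat.add_mul_div_left _ _ hq2, Nat.div_eq_of_lt h1, zero_add]
      have a2 : (y'.1.2.val + y'.1.1.val * q + q ^ 2 * y'.2) / q ^ 2 = y'.2 := by
        rw [Nat.add_mul_div_left _ _ hq2, Nat.div_eq_of_lt h1', zero_add]
      rw [← a1, ← a2, hx]
    rw [hs] at hx
    have hv : y.1.2.val + y.1.1.val * q = y'.1.2.val + y'.1.1.val * q := by omega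
    have b1 : y.1.1.val = y'.1.1.val := by
      have a1 : (y.1.2.val + y.1.1.val * q) / q = y.1.1.val := by
        rw [Nat.add_mul_div_right _ _ hq, Nat.div_eq_of_lt (ZMod.val_lt _), zero_add]
      have a2 : (y'.1.2.val + y'.1.1.val * q) / q = y'.1.1.val := by
        rw [Nat.add_mul_div_right _ _ hq, Nat.div_eq_of_lt (ZMod.val_lt _), zero_add]
      rw [← a1, ← a2, hv]
    have b2 : y.1.2.val = y'.1.2.val := by
      rw [b1] at hv
      omega
    refine Prod.ext (Prod.ext (ZMod.val_injective q b1) (ZMod.val_injective q b2)) hs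

/-- WR-A3 (mass of a residue class). -/
theorem mass_bound {q : ℕ} [Fact q.Prime] (T : Finset ℕ) (S m : ℕ) (hS : 0 < S) (hm : 0 < m)
    (hc : Nat.Coprime q m) (r : ℕ) (u : ZMod q × ZMod q) :
    ∑ v : ZMod q × ZMod q, ((((range S) ×ˢ T).filter
        (fun x => (und u v + q ^ 4 * (S + x.1 + x.2)) % m = r % m)).card : ℝ)
      ≤ T.card * ((q : ℝ) ^ 2 * S / m + 1) := by
  have key : ∑ v : ZMod q × ZMod q, (((range S) ×ˢ T).filter
        (fun x => (und u v + q ^ 4 * (S + x.1 + x.2)) % m = r % m)).card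
      ≤ T.card * (q ^ 2 * S / m + 1) := by
    have h1 : ∀ v : ZMod q × ZMod q, (((range S) ×ˢ T).filter
        (fun x => (und u v + q ^ 4 * (S + x.1 + x.2)) % m = r % m)).card
        = ∑ t ∈ T, ∑ s ∈ range S,
          (if (und u v + q ^ 4 * (S + s + t)) % m = r % m then 1 else 0) := by
      intro v
      rw [card_filter, sum_product_right]
    simp_rw [h1]
    rw [sum_comm]
    rw [← smul_eq_mul, ← sum_const]
    apply sum_le_sum
    intro t _
    refine le_trans (le_of_eq ?_) (mass_fixed S m hm hc r u t)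
    rw [card_filter, sum_product]
  have hmr : (0 : ℝ) < m := by exact_mod_cast hm
  calc ∑ v : ZMod q × ZMod q, ((((range S) ×ˢ T).filter
        (fun x => (und u v + q ^ 4 * (S + x.1 + x.2)) % m = r % m)).card : ℝ)
      = ((∑ v : ZMod q × ZMod q, (((range S) ×ˢ T).filter
        (fun x => (und u v + q ^ 4 * (S + x.1 + x.2)) % m = r % m)).card : ℕ) : ℝ) := by
        push_cast
        rfl
    _ ≤ ((T.card * (q ^ 2 * S / m + 1) : ℕ) : ℝ) := by exact_mod_cast key
    _ = T.card * (((q ^ 2 * S / m : ℕ) : ℝ) + 1) := by push_cast; ring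
    _ ≤ T.card * ((q : ℝ) ^ 2 * S / m + 1) := by
        have : (((q ^ 2 * S / m : ℕ) : ℝ)) ≤ (q : ℝ) ^ 2 * S / m := by
          have := @Nat.cast_div_le ℝ _ _ _ (q ^ 2 * S) m
          simpa using this
        gcongr

end Pool.Agent.Helper87.WR
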